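import Pool.Agent.TOR.Stmts
import Pool.Agent.Helper58_RS.CLU
import Pool.Agent.Helper47_RS.NMT

set_option autoImplicit false

namespace Pool.Agent.TOR.H75

open MvPolynomial
open Pool.Agent.RS (FF io io_injective total numer)
open Pool.Agent.RS.H58C (KIdx det_expand)

theorem zvec_apply (g : ℕ →₀ ℤ) (l : ℕ) : zvec g l = (g l : ℚ) := by
  rw [zvec, Finsupp.mapRange_apply]

theorem zvec_sub (g h : ℕ →₀ ℤ) : zvec (g - h) = zvec g - zvec h := by
  ext l
  rw [zvec_apply, Finsupp.sub_apply, Finsupp.sub_apply, zvec_apply, zvec_apply, Int.cast_sub]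

theorem zvec_sum {ι : Type} (S : Finset ι) (g : ι → ℕ →₀ ℤ) :
    zvec (∑ i ∈ S, g i) = ∑ i ∈ S, zvec (g i) := by
  ext l
  rw [zvec_apply, Finsupp.finset_sum_apply, Finsupp.finset_sum_apply, Int.cast_sum]
  exact Finset.sum_congr rfl fun i _ => (zvec_apply _ _).symm

theorem num_aux (ρ k x : ℕ) (h : ρ ≤ k) :
    ρ.factorial * x ^ ρ ≤ k.factorial * x ^ k + 1 := by
  rcases Nat.eq_zero_or_pos x with hx | hx
  · subst hx
    rcases Nat.eq_zero_or_pos ρ with hρ | hρ
    · subst hρ
      simp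
    · rw [zero_pow (by omega), mul_zero]
      exact Nat.zero_le _
  · exact (Nat.mul_le_mul (Nat.factorial_le h) (Nat.pow_le_pow_right hx h)).trans (Nat.le_succ _)

theorem dtx (hEXP : ExpStmt) (hMON : MonStmt) (hISP : IspStmt) (hSNZ : SnzStmt)
    (hKEY : KeyStmt) : DtxStmt := by
  classical
  intro E _ k c n s D ρ T hρ hT hT0
  obtain ⟨-, hM2, -, hM4, -, -, -⟩ := hMON E
  obtain ⟨hI1, hI2, hI3, hI4, hI5, hI6, hI7, hI8⟩ := hISP
  choose U instU P nu de L ν δ hcard hent hde hnu hdeM hIS hfr hδ hP hsub using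
    fun l => hEXP E c n s D (T l) (hT l) (hT0 l)
  let L' : KIdx U → Submodule ℚ (ℕ →₀ ℚ) := fun t => ⨆ l, L l (t.2 l)
  let ν' : KIdx U → ℕ →₀ ℚ := fun t => ∑ l, ν l (t.2 l)
  let δ' : KIdx U → ℕ →₀ ℤ := fun t => ∑ l, δ l (t.2 l)
  let V : KIdx U × KIdx U → Submodule ℚ (ℕ →₀ ℚ) := fun p =>
    L' p.1 ⊔ L' p.2 ⊔ Submodule.span ℚ {zvec (δ' p.1 - δ' p.2)}
  have hLfin : ∀ t, FiniteDimensional ℚ (L' t) := fun t =>
    hI5 n D _ (hI2 n D _ _ fun l => hIS l (t.2 l))
  have hLfr : ∀ t, Module.finrank ℚ (L' t) ≤ 3 * k * c := by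
    intro t
    refine (hI7 (Fin ρ) (fun l => L l (t.2 l)) fun l => hI5 n D _ (hIS l _)).trans ?_
    refine (Finset.sum_le_card_nsmul _ _ (3 * c) fun l _ => hfr l _).trans ?_
    rw [Finset.card_univ, Fintype.card_fin, smul_eq_mul]
    calc ρ * (3 * c) ≤ k * (3 * c) := Nat.mul_le_mul_right _ hρ
      _ = 3 * k * c := by ring
  have hδ1 : ∀ t l, |δ' t l| ≤ ((k * D : ℕ) : ℤ) := by
    intro t l
    show |(∑ i, δ i (t.2 i)) l| ≤ _
    rw [Finsupp.finset_sum_apply]
    refine (Finset.abs_sum_le_sum_abs _ _).trans ?_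
    refine (Finset.sum_le_card_nsmul _ _ (D : ℤ) fun i _ => (hδ i (t.2 i)).1 l).trans ?_
    rw [Finset.card_univ, Fintype.card_fin, nsmul_eq_mul]
    push_cast
    have h1 : (ρ : ℤ) ≤ k := by exact_mod_cast hρ
    exact mul_le_mul_of_nonneg_right h1 (by positivity)
  have hδ2 : ∀ t l, n ≤ l → δ' t l = 0 := by
    intro t l hl
    show (∑ i, δ i (t.2 i)) l = 0
    rw [Finsupp.finset_sum_apply]
    exact Finset.sum_eq_zero fun i _ => (hδ i (t.2 i)).2 l hl
  refine ⟨KIdx U × KIdx U, inferInstance, V, ?_, ?_, ?_, ?_⟩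
  · rw [Fintype.card_prod, ← sq]
    apply Nat.pow_le_pow_left
    rw [Fintype.card_prod, Fintype.card_perm, Fintype.card_pi, Fintype.card_fin]
    refine le_trans ?_ (num_aux ρ k (s + s * s) hρ)
    apply Nat.mul_le_mul_left
    refine (Finset.prod_le_pow_card _ _ (s + s * s) fun l _ => hcard l).trans ?_
    rw [Finset.card_univ, Fintype.card_fin]
  · rintro ⟨t, t'⟩
    have h1 : ∀ t, IntSpan n ((2 * k + 1) * D) (L' t) := fun t =>
      hI4 n D _ _ (by nlinarith) (hI2 n D _ _ fun l => hIS l (t.2 l))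
    refine hI1 _ _ _ _ (hI1 _ _ _ _ (h1 t) (h1 t')) (hI3 _ _ _ ?_ ?_)
    · intro l
      rw [Finsupp.sub_apply]
      refine (abs_sub _ _).trans ?_
      have := hδ1 t l
      have := hδ1 t' l
      push_cast at *
      nlinarith
    · intro l hl
      rw [Finsupp.sub_apply, hδ2 t l hl, hδ2 t' l hl, sub_zero]
  · rintro ⟨t, t'⟩
    have hfs : FiniteDimensional ℚ (Submodule.span ℚ {zvec (δ' t - δ' t')}) :=
      FiniteDimensional.span_singleton ℚ _
    haveI := hLfin t
    haveI := hLfin t'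
    have h1 := hI6 (L' t ⊔ L' t') (Submodule.span ℚ {zvec (δ' t - δ' t')}) inferInstance hfs
    have h2 := hI6 (L' t) (L' t') (hLfin t) (hLfin t')
    have h3 := hI8 (zvec (δ' t - δ' t'))
    have h4 := hLfr t
    have h5 := hLfr t'
    show Module.finrank ℚ (L' t ⊔ L' t' ⊔ Submodule.span ℚ {zvec (δ' t - δ' t')} :
      Submodule ℚ (ℕ →₀ ℚ)) ≤ _
    calc _ ≤ _ := h1
      _ ≤ (3 * k * c + 3 * k * c) + 1 := by omega
      _ = 6 * k * c + 1 := by ring
  · intro e u hV hdet
    let A : KIdx U → MvPolynomial ℕ E := fun t =>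
      ((Equiv.Perm.sign t.1 : ℤ) : MvPolynomial ℕ E) * ∏ l, nu l (u (t.1 l)) (t.2 l)
    let B : KIdx U → MvPolynomial ℕ E := fun t => ∏ l, de l (t.2 l)
    set De := (Matrix.of fun i l => Du (u i) (T l)).det with hDe
    have hj1 : io E De = io E (∏ l, P l) * total A B := by
      rw [hDe]
      refine det_expand U _ P (fun l i x => nu l (u i) x) de ?_
      intro i l
      rw [Matrix.of_apply]
      exact hent l (u i)
    have hB0 : ∀ t, B t ≠ 0 := fun t => Finset.prod_ne_zero_iff.2 fun l _ => hde l _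
    have hAM : ∀ t, Mon (L' t) (ν' t + zvec (δ' t)) (A t) := by
      intro t
      have h1 : Mon (L' t) (ν' t + zvec (δ' t)) (∏ l, nu l (u (t.1 l)) (t.2 l)) := by
        have h2 := hM2 (Fin ρ) (fun l => L l (t.2 l)) (fun l => ν l (t.2 l) + zvec (δ l (t.2 l)))
          (fun l => nu l (u (t.1 l)) (t.2 l)) (fun l => hnu l _ _)
        rw [Finset.sum_add_distrib, ← zvec_sum] at h2
        exact h2
      rcases Int.units_eq_one_or (Equiv.Perm.sign t.1) with h | h
      · have e1 : A t = ∏ l, nu l (u (t.1 l)) (t.2 l) := by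
          show ((Equiv.Perm.sign t.1 : ℤ) : MvPolynomial ℕ E) * _ = _
          rw [h]
          simp
        rw [e1]
        exact h1
      · have e1 : A t = 0 - ∏ l, nu l (u (t.1 l)) (t.2 l) := by
          show ((Equiv.Perm.sign t.1 : ℤ) : MvPolynomial ℕ E) * _ = _
          rw [h]
          simp
        rw [e1]
        refine (hM4 _ _ _ _ ?_ h1).1
        intro s hs
        simp at hs
    have hBM : ∀ t, Mon (L' t) (ν' t) (B t) := fun t =>
      hM2 (Fin ρ) (fun l => L l (t.2 l)) (fun l => ν l (t.2 l)) (fun l => de l (t.2 l))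
        (fun l => hdeM l _)
    have hV' : ∀ t t', ∀ v ∈ L' t ⊔ L' t' ⊔ Submodule.span ℚ {zvec (δ' t) - zvec (δ' t')},
        lin e v = 0 → v = 0 := by
      intro t t' v hv
      refine hV (t, t') v ?_
      show v ∈ L' t ⊔ L' t' ⊔ Submodule.span ℚ {zvec (δ' t - δ' t')}
      rw [zvec_sub]
      exact hv
    have hinj : ∀ t, ∀ v ∈ L' t, lin e v = 0 → v = 0 := fun t v hv =>
      hV' t t v (Submodule.mem_sup_left (Submodule.mem_sup_left hv))
    obtain ⟨-, -, hn3⟩ := RS.H47.nmt (KIdx U)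
    obtain ⟨htot, hiff⟩ := hn3 E A B hB0
    have hio : Function.Injective (io E) := io_injective
    have hioDe : io E De ≠ 0 := by
      intro h
      rw [← map_zero (io E)] at h
      exact hdet (hio h)
    have htot0 : total A B ≠ 0 := by
      intro h
      rw [h, mul_zero] at hj1
      exact hioDe hj1
    have hbprod : ∏ t, B t ≠ 0 := Finset.prod_ne_zero_iff.2 fun t _ => hB0 t
    have hiob : io E (∏ t, B t) ≠ 0 := by
      intro h
      rw [← map_zero (io E)] at h
      exact hbprod (hio h)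
    have hid : De * ∏ t, B t = (∏ l, P l) * numer A B := by
      apply hio
      rw [map_mul, map_mul, hj1, htot, mul_assoc, div_mul_cancel₀ _ hiob]
    have hkey := hKEY E (KIdx U) A B L' ν' (fun t => zvec (δ' t)) e hB0 hAM hBM hV' htot0
    have hsB : ∀ t, sub e (B t) ≠ 0 := fun t => hSNZ E e (L' t) (ν' t) (B t) (hBM t) (hinj t) (hB0 t)
    obtain ⟨-, hiff'⟩ := hn3 E (fun t => sub e (A t)) (fun t => sub e (B t)) hsB
    have hnum : sub e (numer A B) ≠ 0 := by
      have h1 := hiff'.1 hkey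
      have h2 : sub e (numer A B) = numer (fun t => sub e (A t)) (fun t => sub e (B t)) := by
        rw [numer, numer, map_sum]
        refine Finset.sum_congr rfl fun t _ => ?_
        rw [map_mul, map_prod]
      rw [h2]
      exact h1
    -- a point of the index set
    have hne : Nonempty (KIdx U) := by
      by_contra hne
      rw [not_nonempty_iff] at hne
      apply htot0
      rw [total, Finset.univ_eq_empty, Finset.sum_empty]
    obtain ⟨t₀⟩ := hne
    have hsP : ∀ l, sub e (P l) ≠ 0 := by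
      intro l
      refine hsub l e ?_
      intro x v hv
      refine hinj (t₀.1, Function.update t₀.2 l x) v ?_
      have h1 : L l ((Function.update t₀.2 l x) l) ≤ L' (t₀.1, Function.update t₀.2 l x) :=
        le_iSup (fun l' => L l' ((Function.update t₀.2 l x) l')) l
      apply h1
      rw [Function.update_self]
      exact hv
    intro h0
    have h1 := congrArg (sub e) hid
    rw [map_mul, h0, zero_mul, map_mul, map_prod] at h1
    exact mul_ne_zero (Finset.prod_ne_zero_iff.2 fun l _ => hsP l) hnum h1.symm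

end Pool.Agent.TOR.H75
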