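import Pool.Agent.TOR.Stmts

set_option autoImplicit false

namespace Pool.Agent.TOR.H75

open MvPolynomial

theorem vec_apply (s : ℕ →₀ ℕ) (l : ℕ) : vec s l = (s l : ℚ) := by
  rw [vec, Finsupp.mapRange_apply]

theorem vec_sum (s : ℕ →₀ ℕ) (e : ℕ → ℕ →₀ ℕ) :
    vec (s.sum fun i m => m • e i) = s.sum fun i m => (m : ℚ) • vec (e i) := by
  ext l
  rw [vec_apply, Finsupp.sum_apply, Finsupp.sum_apply, Finsupp.sum, Finsupp.sum, Nat.cast_sum]
  refine Finset.sum_congr rfl fun i _ => ?_
  rw [Finsupp.smul_apply, Finsupp.smul_apply, vec_apply, smul_eq_mul, smul_eq_mul, Nat.cast_mul]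

theorem lin_vec (e : ℕ → ℕ →₀ ℕ) (s : ℕ →₀ ℕ) :
    lin e (vec s) = vec (s.sum fun i m => m • e i) := by
  rw [vec_sum, lin, Finsupp.linearCombination_apply, vec, Finsupp.sum_mapRange_index]
  intro i
  rw [zero_smul]

variable {E : Type} [Field E]

theorem sub_monomial (e : ℕ → ℕ →₀ ℕ) (s : ℕ →₀ ℕ) (a : E) :
    sub e (monomial s a) = monomial (s.sum fun i m => m • e i) a := by
  rw [sub, aeval_monomial, Finsupp.prod, Finsupp.sum]
  have h : ∀ i ∈ s.support, (monomial (e i) (1 : E)) ^ s i = monomial (s i • e i) (1 : E) := by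
    intro i _
    rw [monomial_pow, one_pow]
  rw [Finset.prod_congr rfl h, ← monomial_sum_one, algebraMap_eq, C_mul_monomial, mul_one]

theorem Du_monomial (u : ℕ → E) (s : ℕ →₀ ℕ) (a : E) :
    Du u (monomial s a) = monomial s (a * s.sum fun i m => (m : E) * u i) := by
  rw [Du, mkDerivation_monomial, Finsupp.sum, Finsupp.sum, Finset.mul_sum, map_sum,
    Finset.smul_sum]
  refine Finset.sum_congr rfl fun i hi => ?_
  rw [smul_eq_mul, ← mul_assoc, mul_comm (monomial _ _) (C (u i)), C_mul_monomial]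
  have hX : (X i : MvPolynomial ℕ E) = monomial (Finsupp.single i 1) 1 := rfl
  rw [hX, monomial_mul, mul_one, smul_monomial, smul_eq_mul]
  have hs : s - Finsupp.single i 1 + Finsupp.single i 1 = s := by
    apply tsub_add_cancel_of_le
    rw [Finsupp.single_le_iff]
    exact Nat.one_le_iff_ne_zero.mpr (Finsupp.mem_support_iff.mp hi)
  rw [hs]
  congr 1
  ring

theorem X_mul_pderiv_monomial (j : ℕ) (m : ℕ →₀ ℕ) (a : E) :
    X j * pderiv j (monomial m a) = monomial m (a * (m j : E)) := by
  rw [pderiv_monomial]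
  have hX : (X j : MvPolynomial ℕ E) = monomial (Finsupp.single j 1) 1 := rfl
  rw [hX, monomial_mul, one_mul]
  by_cases h : m j = 0
  · rw [h, Nat.cast_zero, mul_zero, map_zero, map_zero]
  · have hs : Finsupp.single j 1 + (m - Finsupp.single j 1) = m := by
      apply add_tsub_cancel_of_le
      rw [Finsupp.single_le_iff]
      exact Nat.one_le_iff_ne_zero.mpr h
    rw [hs]

theorem sub' : SubStmt := by
  intro E _ e
  refine ⟨sub_monomial e, lin_vec e, ?_⟩
  intro f j
  induction f using MvPolynomial.induction_on' with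
  | monomial s a =>
    rw [sub_monomial, X_mul_pderiv_monomial, Du_monomial, sub_monomial]
    congr 2
    rw [Finsupp.sum_apply, Finsupp.sum, Finsupp.sum, Nat.cast_sum]
    refine Finset.sum_congr rfl fun i _ => ?_
    rw [Finsupp.smul_apply, smul_eq_mul, Nat.cast_mul]
  | add p q hp hq =>
    rw [map_add, map_add, mul_add, hp, hq, map_add, map_add]

end Pool.Agent.TOR.H75
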